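import Pool.Agent.Helper92.PV.St

set_option autoImplicit false
set_option linter.unusedVariables false

open Finset

namespace Pool.Agent.Helper53.PV

open Pool.Agent.Helper92.PV Pool.Agent.Helper92.PU Pool.Agent.Helper92.PW

/-- the vector with coordinates `z` (index `c`), `y` (index `b`), `x` (third index) -/
def vv {R : Type*} (c b : Fin 3) (z x y : R) : Fin 3 → R :=
  fun m => if m = c then z else if m = b then y else x

theorem eval_smul_hom {d : ℕ} {G : MvPolynomial (Fin 3) ℤ} (hG : G.IsHomogeneous d) (w : ℤ)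
    (v : Fin 3 → ℤ) : MvPolynomial.eval (fun i => w * v i) G = w ^ d * MvPolynomial.eval v G := by
  rw [MvPolynomial.eval_eq', MvPolynomial.eval_eq', Finset.mul_sum]
  refine Finset.sum_congr rfl (fun e he => ?_)
  have h1 := hG (MvPolynomial.mem_support_iff.1 he)
  have h2 : ∑ i, e i = d := by
    rw [← h1, Finsupp.weight_apply, Finsupp.sum_fintype _ _ (fun i => by simp)]
    simp
  rw [← h2, ← Finset.prod_pow_eq_pow_sum]
  simp_rw [mul_pow]
  rw [Finset.prod_mul_distrib]
  ring

theorem eval_congr_mod (N : ℤ) (G : MvPolynomial (Fin 3) ℤ) (v v' : Fin 3 → ℤ)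
    (h : ∀ m, N ∣ v m - v' m) : N ∣ MvPolynomial.eval v G - MvPolynomial.eval v' G := by
  induction G using MvPolynomial.induction_on with
  | C a => simp
  | add p q hp hq =>
    rw [map_add, map_add]
    have e : MvPolynomial.eval v p + MvPolynomial.eval v q - (MvPolynomial.eval v' p +
        MvPolynomial.eval v' q) = (MvPolynomial.eval v p - MvPolynomial.eval v' p) +
        (MvPolynomial.eval v q - MvPolynomial.eval v' q) := by ring
    rw [e]
    exact dvd_add hp hq
  | mul_X p i hp =>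
    rw [map_mul, map_mul, MvPolynomial.eval_X, MvPolynomial.eval_X]
    have h1 := dvd_add (Dvd.dvd.mul_right hp (v i)) (Dvd.dvd.mul_left (h i)
      (MvPolynomial.eval v' p))
    have e : MvPolynomial.eval v p * v i - MvPolynomial.eval v' p * v' i =
        (MvPolynomial.eval v p - MvPolynomial.eval v' p) * v i +
        MvPolynomial.eval v' p * (v i - v' i) := by ring
    rw [e]
    exact h1

theorem eval_taylor (G : MvPolynomial (Fin 3) ℤ) (b : Fin 3) (v v' : Fin 3 → ℤ) (δ : ℤ)
    (hb : v' b = v b + δ) (hv : ∀ m, m ≠ b → v' m = v m) :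
    ∃ K : ℤ, MvPolynomial.eval v' G = MvPolynomial.eval v G +
      δ * MvPolynomial.eval v (MvPolynomial.pderiv b G) + δ ^ 2 * K := by
  induction G using MvPolynomial.induction_on with
  | C a => exact ⟨0, by simp⟩
  | add p q hp hq =>
    obtain ⟨K1, h1⟩ := hp
    obtain ⟨K2, h2⟩ := hq
    refine ⟨K1 + K2, ?_⟩
    rw [map_add, map_add, map_add, map_add, h1, h2]
    ring
  | mul_X p i hp =>
    obtain ⟨K, h1⟩ := hp
    rw [map_mul, map_mul, MvPolynomial.eval_X, MvPolynomial.eval_X, MvPolynomial.pderiv_mul,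
      map_add, map_mul, map_mul, MvPolynomial.eval_X, MvPolynomial.pderiv_X, h1]
    by_cases hi : i = b
    · subst hi
      refine ⟨K * (v i + δ) + MvPolynomial.eval v (MvPolynomial.pderiv i p), ?_⟩
      rw [hb]
      simp only [Pi.single_eq_same, map_one]
      ring
    · refine ⟨K * v i, ?_⟩
      rw [hv i hi]
      rw [Pi.single_eq_of_ne hi]
      simp only [map_zero]
      ring

theorem eval_aeval (G : MvPolynomial (Fin 3) ℤ) (v : Fin 3 → Polynomial ℤ) (s : ℤ) :
    (MvPolynomial.aeval v G).eval s = MvPolynomial.eval (fun m => (v m).eval s) G := by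
  induction G using MvPolynomial.induction_on with
  | C a => simp
  | add p q hp hq => rw [map_add, map_add, Polynomial.eval_add, hp, hq]
  | mul_X p i hp =>
    rw [map_mul, map_mul, Polynomial.eval_mul, hp, MvPolynomial.aeval_X, MvPolynomial.eval_X]

theorem inv_mod {P : ℕ} (hP : P.Prime) (k : ℕ) {x : ℤ} (hx : ¬ (P : ℤ) ∣ x) :
    ∃ w : ℤ, (P : ℤ) ^ k ∣ w * x - 1 := by
  have hp : Prime (P : ℤ) := Nat.prime_iff_prime_int.1 hP
  have h1 : IsCoprime (P : ℤ) x := (Prime.coprime_iff_not_dvd hp).2 hx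
  have h2 : IsCoprime ((P : ℤ) ^ k) x := h1.pow_left
  obtain ⟨a, w, h⟩ := h2
  exact ⟨w, -a, by linarith⟩

theorem pro_apply {P : ℕ} {p q : Pt} (h : Pro P p q) (i j : Fin 3) :
    (P : ℤ) ∣ vec p i * vec q j - vec p j * vec q i := by
  obtain ⟨h1, h2, h3⟩ := h
  simp only [crs] at h1 h2 h3
  have e1 : (P : ℤ) ∣ p.2.1 * q.2.2 - p.2.2 * q.2.1 := by
    convert h1 using 1
  have e2 : (P : ℤ) ∣ p.2.2 * q.1 - p.1 * q.2.2 := by
    convert h2 using 1
  have e3 : (P : ℤ) ∣ p.1 * q.2.1 - p.2.1 * q.1 := by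
    convert h3 using 1
  have e1' : (P : ℤ) ∣ p.2.2 * q.2.1 - p.2.1 * q.2.2 := by
    have h := dvd_neg.2 e1
    rwa [neg_sub] at h
  have e2' : (P : ℤ) ∣ p.1 * q.2.2 - p.2.2 * q.1 := by
    have h := dvd_neg.2 e2
    rwa [neg_sub] at h
  have e3' : (P : ℤ) ∣ p.2.1 * q.1 - p.1 * q.2.1 := by
    have h := dvd_neg.2 e3
    rwa [neg_sub] at h
  fin_cases i <;> fin_cases j <;> simp [vec] <;> assumption

theorem third (b c : Fin 3) (h : b ≠ c) : ∃ a : Fin 3, a ≠ b ∧ a ≠ c ∧ ∀ m, m = a ∨ m = b ∨ m = c := by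
  revert h
  revert b c
  decide

/-- the Hensel iteration -/
noncomputable def phi (G : MvPolynomial (Fin 3) ℤ) (c b : Fin 3) (x1 y1 u : ℤ) : ℕ → Polynomial ℤ
  | 0 => Polynomial.C y1
  | m + 1 => phi G c b x1 y1 u m - Polynomial.C u * MvPolynomial.aeval
      (vv c b (1 : Polynomial ℤ) (Polynomial.C x1 + Polynomial.X) (phi G c b x1 y1 u m)) G

theorem phi_succ_eval (G : MvPolynomial (Fin 3) ℤ) (c b : Fin 3) (x1 y1 u : ℤ) (m : ℕ) (s : ℤ) :
    (phi G c b x1 y1 u (m + 1)).eval s = (phi G c b x1 y1 u m).eval s -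
      u * MvPolynomial.eval (vv c b (1 : ℤ) (x1 + s) ((phi G c b x1 y1 u m).eval s)) G := by
  rw [phi, Polynomial.eval_sub, Polynomial.eval_mul, Polynomial.eval_C, eval_aeval]
  congr 3
  congr 1
  funext i
  unfold vv
  split_ifs <;> simp

theorem hLPR : StLPR := by
  intro P d G p1 hP hG hp1 hgr hne1
  have hpZ : Prime (P : ℤ) := Nat.prime_iff_prime_int.1 hP
  obtain ⟨c, hc⟩ := hne1
  -- Euler
  have hE : ∑ m : Fin 3, vec p1 m * grd G p1 m = 0 := by
    have h := congrArg (MvPolynomial.eval (vec p1)) hG.sum_X_mul_pderiv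
    rw [map_sum] at h
    simp only [map_mul, MvPolynomial.eval_X, map_nsmul] at h
    have h0 : MvPolynomial.eval (vec p1) G = 0 := hp1
    rw [h0, smul_zero] at h
    exact h
  obtain ⟨b, hbc, hb⟩ : ∃ b, b ≠ c ∧ ¬ (P : ℤ) ∣ grd G p1 b := by
    by_contra hcon
    push Not at hcon
    have h1 : (P : ℤ) ∣ vec p1 c * grd G p1 c := by
      rw [← Finset.add_sum_erase _ _ (Finset.mem_univ c)] at hE
      have h2 : (P : ℤ) ∣ ∑ m ∈ Finset.univ.erase c, vec p1 m * grd G p1 m :=
        Finset.dvd_sum (fun m hm => Dvd.dvd.mul_left (hcon m (Finset.ne_of_mem_erase hm)) _)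
      have h3 : vec p1 c * grd G p1 c = - ∑ m ∈ Finset.univ.erase c, vec p1 m * grd G p1 m := by
        linarith
      rw [h3]
      exact (dvd_neg.2 h2)
    have h2 : (P : ℤ) ∣ grd G p1 c := by
      rcases hpZ.dvd_or_dvd h1 with h | h
      · exact absurd h hc
      · exact h
    obtain ⟨b, hb⟩ := hgr
    by_cases hbc : b = c
    · subst hbc
      exact hb h2
    · exact hb (hcon b hbc)
  obtain ⟨a, hab, hac, hall⟩ := third b c hbc
  obtain ⟨w1, hw1⟩ := inv_mod hP 6 hc
  have hP6 : (P : ℤ) ∣ (P : ℤ) ^ 6 := dvd_pow_self _ (by norm_num)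
  have hw1' : (P : ℤ) ∣ w1 * vec p1 c - 1 := hP6.trans hw1
  have hw1n : ¬ (P : ℤ) ∣ w1 := by
    intro h
    have h2 : (P : ℤ) ∣ 1 := by
      have := dvd_sub (Dvd.dvd.mul_right h (vec p1 c)) hw1'
      simpa using this
    exact hpZ.not_isUnit (isUnit_of_dvd_one h2)
  set x1 : ℤ := w1 * vec p1 a with hx1
  set y1 : ℤ := w1 * vec p1 b with hy1
  -- the derivative at (1, x1, y1)
  set D0 : ℤ := MvPolynomial.eval (vv c b (1 : ℤ) x1 y1) (MvPolynomial.pderiv b G) with hD0
  have hD0n : ¬ (P : ℤ) ∣ D0 := by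
    intro h
    have h1 : (P : ℤ) ∣ MvPolynomial.eval (fun i => w1 * vec p1 i) (MvPolynomial.pderiv b G) - D0 := by
      apply eval_congr_mod
      intro m
      rcases hall m with hm | hm | hm
      · subst hm
        simp only [vv, if_neg hac, if_neg hab]
        rw [hx1]
        simp
      · subst hm
        simp only [vv, if_neg hbc, if_true]
        rw [hy1]
        simp
      · subst hm
        simp only [vv, if_true]
        exact hw1'
    rw [eval_smul_hom hG.pderiv] at h1
    have h2 : (P : ℤ) ∣ w1 ^ (d - 1) * MvPolynomial.eval (vec p1) (MvPolynomial.pderiv b G) := by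
      have := dvd_add h1 h
      simpa using this
    rcases hpZ.dvd_or_dvd h2 with h3 | h3
    · exact hw1n (hpZ.dvd_of_dvd_pow h3)
    · exact hb h3
  obtain ⟨u, hu⟩ := inv_mod hP 1 hD0n
  rw [pow_one] at hu
  refine ⟨c, vv c b (1 : Polynomial ℤ) (Polynomial.C x1 + Polynomial.X) (phi G c b x1 y1 u 5), ?_⟩
  intro p hp hpro hpn
  have hpc : ¬ (P : ℤ) ∣ vec p c := by
    intro h
    obtain ⟨m, hm⟩ := hpn
    have h1 := pro_apply hpro c m
    have h2 : (P : ℤ) ∣ vec p1 c * vec p m := by
      have := dvd_add h1 (Dvd.dvd.mul_left h (vec p1 m))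
      simpa using this
    rcases hpZ.dvd_or_dvd h2 with h3 | h3
    · exact hc h3
    · exact hm h3
  obtain ⟨w, hw⟩ := inv_mod hP 6 hpc
  have hw' : (P : ℤ) ∣ w * vec p c - 1 := hP6.trans hw
  -- congruences of the normalised coordinates
  have hcong : ∀ m, (P : ℤ) ∣ w * vec p m - w1 * vec p1 m := by
    intro m
    have h1 := pro_apply hpro c m
    -- w p m - w1 p1 m = w w1 (p m p1 c - p1 m p c) - w p m (w1 p1 c - 1) + w1 p1 m (w p c - 1)
    have h2 : w * vec p m - w1 * vec p1 m = w * w1 * (vec p1 c * vec p m - vec p1 m * vec p c) -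
        w * vec p m * (w1 * vec p1 c - 1) + w1 * vec p1 m * (w * vec p c - 1) := by ring
    rw [h2]
    exact dvd_add (dvd_sub (Dvd.dvd.mul_left h1 _) (Dvd.dvd.mul_left hw1' _)) (Dvd.dvd.mul_left hw' _)
  set s : ℤ := w * vec p a - x1 with hs
  set Y : ℤ := w * vec p b with hY
  have hsP : (P : ℤ) ∣ s := hcong a
  have hYP : (P : ℤ) ∣ Y - y1 := hcong b
  have hg : (P : ℤ) ^ 6 ∣ MvPolynomial.eval (vv c b (1 : ℤ) (x1 + s) Y) G := by
    have h1 : (P : ℤ) ^ 6 ∣ MvPolynomial.eval (fun i => w * vec p i) G -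
        MvPolynomial.eval (vv c b (1 : ℤ) (x1 + s) Y) G := by
      apply eval_congr_mod
      intro m
      rcases hall m with hm | hm | hm
      · subst hm
        simp only [vv, if_neg hac, if_neg hab]
        have : w * vec p m - (x1 + s) = 0 := by rw [hs]; ring
        rw [this]
        exact dvd_zero _
      · subst hm
        simp only [vv, if_neg hbc, if_true]
        rw [hY]
        simp
      · subst hm
        simp only [vv, if_true]
        exact hw
    rw [eval_smul_hom hG] at h1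
    have h2 : MvPolynomial.eval (vec p) G = 0 := hp
    rw [h2, mul_zero, zero_sub] at h1
    exact (dvd_neg.1 h1)
  -- Hensel
  have hclaim : ∀ m : ℕ, m ≤ 5 → (P : ℤ) ^ (m + 1) ∣ Y - (phi G c b x1 y1 u m).eval s := by
    intro m
    induction m with
    | zero =>
      intro _
      simpa [phi] using hYP
    | succ m ih =>
      intro hm
      have ih' := ih (by omega)
      set y : ℤ := (phi G c b x1 y1 u m).eval s with hy
      set δ : ℤ := Y - y with hδ
      obtain ⟨K, hK⟩ := eval_taylor G b (vv c b (1 : ℤ) (x1 + s) y) (vv c b (1 : ℤ) (x1 + s) Y) δ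
        (by simp [vv, hbc, hδ]) (by intro m hm; simp [vv, hm])
      set D : ℤ := MvPolynomial.eval (vv c b (1 : ℤ) (x1 + s) y) (MvPolynomial.pderiv b G) with hD
      set E : ℤ := MvPolynomial.eval (vv c b (1 : ℤ) (x1 + s) y) G with hE'
      have hPδ : (P : ℤ) ∣ δ := (dvd_pow_self _ (by omega)).trans ih'
      have hDD : (P : ℤ) ∣ D - D0 := by
        apply eval_congr_mod
        intro k
        rcases hall k with hk | hk | hk
        · subst hk
          simp only [vv, if_neg hac, if_neg hab]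
          simpa using hsP
        · subst hk
          simp only [vv, if_neg hbc, if_true]
          have : y - y1 = (Y - y1) - δ := by rw [hδ]; ring
          rw [this]
          exact dvd_sub hYP hPδ
        · subst hk
          simp only [vv, if_true]
          simp
      have huD : (P : ℤ) ∣ 1 - u * D := by
        have : 1 - u * D = -(u * D0 - 1) - u * (D - D0) := by ring
        rw [this]
        exact dvd_sub (dvd_neg.2 hu) (Dvd.dvd.mul_left hDD _)
      rw [phi_succ_eval]
      have key : Y - (y - u * E) = δ * (1 - u * D) + u * (MvPolynomial.eval (vv c b (1 : ℤ) (x1 + s) Y) G)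
          - u * K * δ ^ 2 := by
        rw [hK, hδ]
        ring
      rw [key]
      refine dvd_sub (dvd_add ?_ ?_) ?_
      · rw [pow_succ]
        exact mul_dvd_mul ih' huD
      · exact Dvd.dvd.mul_left ((pow_dvd_pow _ (by omega)).trans hg) _
      · apply Dvd.dvd.mul_left
        have h1 : ((P : ℤ) ^ (m + 1)) ^ 2 ∣ δ ^ 2 := pow_dvd_pow_of_dvd ih' 2
        rw [← pow_mul] at h1
        exact (pow_dvd_pow _ (by omega)).trans h1
  have h5 := hclaim 5 (le_refl _)
  refine ⟨s, hsP, ?_⟩
  intro m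
  rcases hall m with hm | hm | hm
  · subst hm
    simp only [vv, if_neg hac, if_neg hab]
    rw [Polynomial.eval_add, Polynomial.eval_C, Polynomial.eval_X]
    have : vec p m - vec p c * (x1 + s) = -(vec p m * (w * vec p c - 1)) := by rw [hs]; ring
    rw [this]
    exact dvd_neg.2 (Dvd.dvd.mul_left hw _)
  · subst hm
    simp only [vv, if_neg hbc, if_true]
    have : vec p m - vec p c * (phi G c m x1 y1 u 5).eval s = -(vec p m * (w * vec p c - 1)) +
        vec p c * (Y - (phi G c m x1 y1 u 5).eval s) := by rw [hY]; ring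
    rw [this]
    exact dvd_add (dvd_neg.2 (Dvd.dvd.mul_left hw _)) (Dvd.dvd.mul_left h5 _)
  · subst hm
    simp only [vv, if_true]
    simp

end Pool.Agent.Helper53.PV
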